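import Pool.Agent.Helper23.PL.SpecB

/-!
# PL-10 (SP): pins with small hubs (MP_0dbcb7_co)
-/

set_option autoImplicit false

open Set
open Pool.Agent.Helper83.OP Pool.Agent.Helper93.HH Pool.Agent.Helper23.PL

namespace Pool.Agent.Helper49.PL

section

variable {V P Q : Type} [Finite V] [Finite P] [Finite Q] {D : HD V P Q} {k k1 k2 : ℕ}

/-- no cheap walk from the foot of a pin to its hub -/
theorem no_rch (hD : D.Ok) (hB : Bad D k k2) (hk : k2 ≤ k) (hk1 : 1 ≤ k) (p : P) {t m ρ : ℕ}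
    (ht : t ≤ m * ρ) (hm : 4 * m ≤ k) (hρ : ρ ≤ 4 * (sg D k2 p - 1)) :
    ¬ Rch D (Fp D p) t (D.x p) (D.hub p) := by
  intro h
  have hne : D.x p ≠ D.hub p := fun h0 => hD.x_U p (h0 ▸ hD.hub_U p)
  have ht' : t ≤ k * (sg D k2 p - 1) := by
    calc t ≤ m * ρ := ht
      _ ≤ m * (4 * (sg D k2 p - 1)) := Nat.mul_le_mul_left _ hρ
      _ = (4 * m) * (sg D k2 p - 1) := by ring
      _ ≤ k * (sg D k2 p - 1) := Nat.mul_le_mul_right _ hm
  exact no_byp hD hB hk hk1 p ((h.byp hne).mono subset_rfl ht')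

/-- from a vertex near the foot of another pin to its hub -/
theorem rch_hub (hD : D.Ok) {p p' : P} (hne : p' ≠ p) {s : ℕ} {u : V} (hu : u ∉ D.U)
    (h : Nr D.N s u (D.x p')) :
    Rch D (Fp D p) (s + ((D.w p').length + deg D.G (D.hub p'))) u (D.hub p') :=
  (Rch.of_nr hD p hu h).trans (Rch.pin hD hne)

/-- a graph whose edges are given by pins -/
theorem gg (I : Set P) (a b : P → V) (t0 g t : ℕ) (C : Set V)
    (hne : ∀ p ∈ I, a p ≠ b p)
    (hR : ∀ p ∈ I, ∀ p' ∈ I, p ≠ p' → Rch D (Fp D p) t0 (a p') (b p'))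
    (hno : ∀ p ∈ I, ¬ Rch D (Fp D p) (g * t0) (a p) (b p))
    (hCa : ∀ p ∈ I, a p ∈ C) (hCb : ∀ p ∈ I, b p ∈ C)
    (ht : 10 ^ t * Nat.card V < 11 ^ t) (hg : 8 * t + 2 ≤ g) :
    10 * I.ncard ≤ 11 * C.ncard := by
  have hinj : ∀ p ∈ I, ∀ p' ∈ I, s(a p, b p) = s(a p', b p') → p = p' := by
    intro p hp p' hp' h
    by_contra hpp
    apply hno p hp
    have h1 := hR p hp p' hp' hpp
    have hle : t0 ≤ g * t0 := Nat.le_mul_of_pos_left _ (by omega)
    rw [Sym2.eq_iff] at h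
    rcases h with ⟨h2, h3⟩ | ⟨h2, h3⟩
    · rw [h2, h3]
      exact h1.mono subset_rfl hle
    · rw [h2, h3]
      exact h1.symm.mono subset_rfl hle
  let Γ : SimpleGraph V :=
    { Adj := fun u v => ∃ p ∈ I, s(a p, b p) = s(u, v)
      symm := ⟨fun u v h => by
        obtain ⟨p, hp, h1⟩ := h
        exact ⟨p, hp, h1.trans Sym2.eq_swap⟩⟩
      loopless := ⟨fun u h => by
        obtain ⟨p, hp, h1⟩ := h
        rw [Sym2.eq_iff] at h1
        rcases h1 with ⟨h2, h3⟩ | ⟨h2, h3⟩ <;> exact hne p hp (h2.trans h3.symm)⟩ }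
  let F : Sym2 V → Set (Sym2 V) := fun f => {e | ∃ p ∈ I, s(a p, b p) = f ∧ e ∈ Fp D p}
  have hF : ∀ p ∈ I, F s(a p, b p) = Fp D p := by
    intro p hp
    ext e
    constructor
    · rintro ⟨p', hp', h1, h2⟩
      rw [← hinj p' hp' p hp h1]
      exact h2
    · intro h
      exact ⟨p, hp, rfl, h⟩
  have hAdj : ∀ u v, Γ.Adj u v ↔ ∃ p ∈ I, s(a p, b p) = s(u, v) := fun u v => Iff.rfl
  have hE : Γ.edgeSet = (fun p => s(a p, b p)) '' I := by
    ext f
    induction f using Sym2.ind with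
    | _ u v =>
      rw [SimpleGraph.mem_edgeSet, hAdj]
      rfl
  have hcard : Γ.edgeSet.ncard = I.ncard := by
    rw [hE]
    exact Set.ncard_image_of_injOn fun p hp p' hp' h => hinj p hp p' hp' h
  rw [← hcard]
  refine girthG (D := D) t0 g t Γ F ?_ ?_ C ?_ ht hg
  · intro f hf u v huv hne'
    rw [hE] at hf
    obtain ⟨p, hp, rfl⟩ := hf
    obtain ⟨p', hp', h1⟩ := huv
    have hpp : p ≠ p' := by
      rintro rfl
      exact hne' h1.symm
    have h2 := hR p hp p' hp' hpp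
    show Rch D (F s(a p, b p)) t0 u v
    rw [hF p hp]
    rw [Sym2.eq_iff] at h1
    rcases h1 with ⟨h3, h4⟩ | ⟨h3, h4⟩
    · rw [← h3, ← h4]
      exact h2
    · rw [← h3, ← h4]
      exact h2.symm
  · intro u v huv
    obtain ⟨p, hp, h1⟩ := huv
    rw [← h1, hF p hp]
    intro h
    rw [Sym2.eq_iff] at h1
    rcases h1 with ⟨h3, h4⟩ | ⟨h3, h4⟩
    · rw [← h3, ← h4] at h
      exact hno p hp h.symm
    · rw [← h3, ← h4] at h
      exact hno p hp h
  · intro u v huv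
    obtain ⟨p, hp, h1⟩ := huv
    rw [Sym2.eq_iff] at h1
    rcases h1 with ⟨h3, h4⟩ | ⟨h3, h4⟩
    · rw [← h3]
      exact hCa p hp
    · rw [← h4]
      exact hCb p hp

/-- the facts on the pins of the family -/
theorem facts (hD : D.Ok) (hB : Bad D k k2) (hk : k2 ≤ k) (hk1 : 1 ≤ k) {j : ℕ} {p : P}
    (hL : ¬ Lg D k1 k2 p) (hj : Nat.log 2 (sg D k2 p) = j) :
    sg D k2 p < 2 ^ (j + 1) ∧ 2 ^ (j + 1) ≤ 4 * (sg D k2 p - 1) ∧ (D.w p).length ≤ 2 ^ (j + 1) ∧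
      deg D.G (D.hub p) ≤ k1 * 2 ^ (j + 1) := by
  obtain ⟨h2, -, -, -⟩ := sg_le hD hB hk hk1 p
  have h3 : sg D k2 p < 2 ^ (j + 1) := by
    rw [← hj]
    exact Nat.lt_pow_succ_log_self (by norm_num) _
  have h4 : 2 ^ j ≤ sg D k2 p := by
    rw [← hj]
    exact Nat.pow_log_le_self 2 (by omega)
  have h5 : (D.w p).length ≤ sg D k2 p := le_max_left _ _
  refine ⟨h3, ?_, by omega, ?_⟩
  · rw [pow_succ]
    omega
  · unfold Lg at hL
    push Not at hL
    exact hL.trans (Nat.mul_le_mul_left _ h3.le)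

/-- the partner of a pin whose nearest other hub is near -/
theorem partner (hD : D.Ok) (hB : Bad D k k2) (hk : k2 ≤ k) (hk1 : 1 ≤ k) {p : P} {ρ : ℕ}
    (hρ : sg D k2 p < ρ) (hR : e1 D p < Rb D k2 (D.x p)) :
    ∃ s, Nr D.N s (D.x p) (D.x (pt1 D p)) ∧ s + (D.w (pt1 D p)).length ≤ ρ ∧
      D.hub (pt1 D p) ≠ D.hub p ∧
      (¬ Lg D k1 k2 (pt1 D p) → deg D.G (D.hub (pt1 D p)) ≤ 2 * k1 * ρ) := by
  obtain ⟨-, -, h128, -⟩ := sg_le hD hB hk hk1 p
  have he : e1 D p ≤ sg D k2 p := by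
    unfold sg
    rw [min_eq_left hR.le]
    exact le_max_right _ _
  have hp : (D.w p).length ≤ sg D k2 p := le_max_left _ _
  have hcap : e1 D p < cap D := by omega
  obtain ⟨hne, s, hs, hs'⟩ := e1_spec hcap
  refine ⟨s, hs, by omega, hne, ?_⟩
  intro hL
  unfold Lg at hL
  push Not at hL
  refine hL.trans ?_
  have h1 : e1 D (pt1 D p) ≤ s + (D.w p).length := e1_le hne.symm ⟨s, hs.symm, le_rfl⟩
  have h2 : sg D k2 (pt1 D p) ≤ 2 * ρ := by
    unfold sg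
    refine max_le (by omega) ((min_le_left _ _).trans (by omega))
  calc k1 * sg D k2 (pt1 D p) ≤ k1 * (2 * ρ) := Nat.mul_le_mul_left _ h2
    _ = 2 * k1 * ρ := by ring

end

/-- **PL-10 (SP).** Pins with small hubs. -/
theorem SP : ∃ A : ℕ, ∀ (V P Q : Type) [Finite V] [Finite P] [Finite Q] (D : HD V P Q)
    (k k1 k2 j t : ℕ), D.Ok → Bad D k k2 → k2 ≤ k → 10 ^ t * Nat.card V < 11 ^ t →
    10 ^ 6 * (k1 + 1) * (t + 1) ≤ k →
    (k2 + 1) * {p | ¬ Lg D k1 k2 p ∧ Nat.log 2 (sg D k2 p) = j}.ncard ≤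
      A * ((k2 + 1) * (D.U.ncard + {p | Lg D k1 k2 p}.ncard) + (Vb D).ncard) := by
  refine ⟨3, ?_⟩
  intro V P Q _ _ _ D k k1 k2 j t hD hB hk ht hkk
  classical
  have hk1 : 1 ≤ k := by
    have : 1 ≤ 10 ^ 6 * (k1 + 1) * (t + 1) := Nat.succ_le_of_lt (by positivity)
    omega
  set B : Set P := {p | ¬ Lg D k1 k2 p ∧ Nat.log 2 (sg D k2 p) = j} with hBdef
  obtain ⟨ρ, hρ⟩ : ∃ ρ, ρ = 2 ^ (j + 1) := ⟨_, rfl⟩
  have hfB : ∀ p ∈ B, sg D k2 p < ρ ∧ ρ ≤ 4 * (sg D k2 p - 1) ∧ (D.w p).length ≤ ρ ∧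
      deg D.G (D.hub p) ≤ k1 * ρ := by
    intro p hp
    rw [hρ]
    exact facts hD hB hk hk1 hp.1 hp.2
  obtain ⟨C, hCB, hsep, hcov⟩ := exists_sep D B (8 * ρ)
  -- arithmetic
  have hm1 : 4 * (2 + 5 * k1 + (8 * t + 2) * (3 + 4 * k1)) ≤ k := by
    refine le_trans ?_ hkk
    nlinarith [Nat.zero_le (k1 * t)]
  have hm2 : 4 * (9 + k1 + (8 * t + 2) * (9 + k1) + 8) ≤ k := by
    refine le_trans ?_ hkk
    nlinarith [Nat.zero_le (k1 * t)]
  -- the three classes of centres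
  set C1 : Set P := {p | p ∈ C ∧ Rb D k2 (D.x p) ≤ e1 D p} with hC1
  set C2 : Set P := {p | p ∈ C ∧ e1 D p < Rb D k2 (D.x p) ∧ Lg D k1 k2 (pt1 D p)} with hC2
  set C3 : Set P := {p | p ∈ C ∧ e1 D p < Rb D k2 (D.x p) ∧ ¬ Lg D k1 k2 (pt1 D p)} with hC3
  have hCC : C = C1 ∪ C2 ∪ C3 := by
    ext p
    simp only [hC1, hC2, hC3, Set.mem_union, Set.mem_setOf_eq]
    constructor
    · intro hp
      rcases le_or_gt (Rb D k2 (D.x p)) (e1 D p) with h | h
      · exact Or.inl (Or.inl ⟨hp, h⟩)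
      · by_cases h' : Lg D k1 k2 (pt1 D p)
        · exact Or.inl (Or.inr ⟨hp, h, h'⟩)
        · exact Or.inr ⟨hp, h, h'⟩
    · rintro ((h | h) | h) <;> exact h.1
  have hcardC : C.ncard ≤ C1.ncard + C2.ncard + C3.ncard := by
    conv_lhs => rw [hCC]
    exact (Set.ncard_union_le _ _).trans (Nat.add_le_add_right (Set.ncard_union_le _ _) _)
  -- the first class
  have h1 : (k2 + 1) * C1.ncard ≤ (Vb D).ncard := by
    refine big_few D ρ C1 ?_ ?_
    · intro p hp p' hp' hne h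
      exact hsep p hp.1 p' hp'.1 hne (h.mono (by omega))
    · intro p hp
      have hpB := hfB p (hCB hp.1)
      obtain ⟨-, -, h128, -⟩ := sg_le hD hB hk hk1 p
      have hle : Rb D k2 (D.x p) ≤ sg D k2 p := by
        unfold sg
        rw [min_eq_right hp.2]
        exact le_max_right _ _
      have h5 := Rb_spec (D := D) (k2 := k2) (y := D.x p) (by omega)
      refine lt_of_lt_of_le h5 ?_
      unfold bv
      refine Set.ncard_le_ncard (Set.inter_subset_inter_left _ ?_) (Set.toFinite _)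
      exact D.ball_mono (by omega) _
  -- two centres with the same partner
  have hpt : ∀ p ∈ C, ∀ p' ∈ C, e1 D p < Rb D k2 (D.x p) → e1 D p' < Rb D k2 (D.x p') → p ≠ p' →
      pt1 D p ≠ pt1 D p' ∧ pt1 D p ≠ p' := by
    intro p hp p' hp' hR hR' hne
    obtain ⟨s, hs, hs', -⟩ := partner (k1 := k1) hD hB hk hk1 (hfB p (hCB hp)).1 hR
    obtain ⟨s2, hs2, hs2', -⟩ := partner (k1 := k1) hD hB hk hk1 (hfB p' (hCB hp')).1 hR'
    constructor
    · intro h
      rw [← h] at hs2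
      exact hsep p hp p' hp' hne ((hs.trans hs2.symm).mono (by omega))
    · intro h
      rw [h] at hs
      exact hsep p hp p' hp' hne (hs.mono (by omega))
  -- the second class
  have h2 : C2.ncard ≤ {p | Lg D k1 k2 p}.ncard := by
    refine Set.ncard_le_ncard_of_injOn (pt1 D) (fun p hp => hp.2.2) ?_ (Set.toFinite _)
    intro p hp p' hp' h
    by_contra hne
    exact (hpt p hp.1 p' hp'.1 hp.2.1 hp'.2.1 hne).1 h
  -- the third class
  have h3 : 10 * C3.ncard ≤ 11 * D.U.ncard := by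
    refine gg (D := D) C3 (fun p => D.hub p) (fun p => D.hub (pt1 D p)) ((3 + 4 * k1) * ρ) (8 * t + 2)
      t D.U ?_ ?_ ?_ ?_ ?_ ht le_rfl
    · intro p hp
      obtain ⟨s, hs, hs', hne, -⟩ := partner (k1 := k1) hD hB hk hk1 (hfB p (hCB hp.1)).1 hp.2.1
      exact hne.symm
    · intro p hp p' hp' hne
      obtain ⟨s, hs, hs', -, hd⟩ := partner (k1 := k1) hD hB hk hk1 (hfB p' (hCB hp'.1)).1 hp'.2.1
      have hd := hd hp'.2.2
      have hne1 : pt1 D p' ≠ p := (hpt p' hp'.1 p hp.1 hp'.2.1 hp.2.1 hne.symm).2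
      obtain ⟨-, -, hl, hdp⟩ := hfB p' (hCB hp'.1)
      refine ((Rch.pin hD hne.symm).symm.trans (rch_hub hD hne1 (hD.x_U p') hs)).mono subset_rfl ?_
      nlinarith
    · intro p hp hcon
      obtain ⟨s, hs, hs', hne, hd⟩ := partner (k1 := k1) hD hB hk hk1 (hfB p (hCB hp.1)).1 hp.2.1
      have hd := hd hp.2.2
      have hne1 : pt1 D p ≠ p := fun h => hne (by rw [h])
      obtain ⟨-, hρ4, hl, hdp⟩ := hfB p (hCB hp.1)
      refine no_rch hD hB hk hk1 p (m := 2 + 5 * k1 + (8 * t + 2) * (3 + 4 * k1)) ?_ hm1 hρ4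
        ((rch_hub hD hne1 (hD.x_U p) hs).trans hcon.symm)
      nlinarith
    · intro p _
      exact hD.hub_U p
    · intro p _
      exact hD.hub_U _
  -- the centre of a pin
  choose! c hcC hcN using hcov
  have h4 : 10 * B.ncard ≤ 11 * (D.x '' C ∪ D.U).ncard := by
    refine gg (D := D) B (fun p => D.x (c p)) (fun p => D.hub p) ((9 + k1) * ρ) (8 * t + 2)
      t _ ?_ ?_ ?_ ?_ ?_ ht le_rfl
    · intro p _ h
      exact hD.x_U (c p) (h ▸ hD.hub_U p)
    · intro p hp p' hp' hne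
      obtain ⟨-, -, hl, hdp⟩ := hfB p' hp'
      refine (rch_hub hD hne.symm (hD.x_U _) (hcN p' hp').symm).mono subset_rfl ?_
      nlinarith
    · intro p hp hcon
      obtain ⟨-, hρ4, hl, hdp⟩ := hfB p hp
      refine no_rch hD hB hk hk1 p (m := 9 + k1 + (8 * t + 2) * (9 + k1) + 8) ?_ hm2 hρ4
        ((Rch.of_nr hD p (hD.x_U p) (hcN p hp)).trans hcon)
      nlinarith [Nat.zero_le (k1 * ρ)]
    · intro p hp
      exact Or.inl ⟨_, hcC p hp, rfl⟩
    · intro p _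
      exact Or.inr (hD.hub_U p)
  have h5 : (D.x '' C ∪ D.U).ncard ≤ C.ncard + D.U.ncard :=
    (Set.ncard_union_le _ _).trans (Nat.add_le_add_right (Set.ncard_image_le (Set.toFinite _)) _)
  -- the sum
  have h6 : 100 * B.ncard ≤ 110 * C1.ncard + (300 * (D.U.ncard + {p | Lg D k1 k2 p}.ncard)) := by
    omega
  have h7 : 100 * ((k2 + 1) * B.ncard) ≤ 110 * ((k2 + 1) * C1.ncard) +
      300 * ((k2 + 1) * (D.U.ncard + {p | Lg D k1 k2 p}.ncard)) := by
    calc 100 * ((k2 + 1) * B.ncard) = (k2 + 1) * (100 * B.ncard) := by ring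
      _ ≤ (k2 + 1) * (110 * C1.ncard + (300 * (D.U.ncard + {p | Lg D k1 k2 p}.ncard))) :=
        Nat.mul_le_mul_left _ h6
      _ = _ := by ring
  omega

end Pool.Agent.Helper49.PL
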